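import Pool.Agent.helper69.GR2B.Spec

/-!
# Project gb: (MP_af9036_an, MP_70a088_an), module BCI (compare helper21/GR3/COR3.lean)
-/

set_option autoImplicit false

open Complex Metric Set Filter Topology MeasureTheory
open MPS (om)
open PPS (pre TT fd)
open XPS (Df er dens tau)
open Pool.Agent.helper16.Multibrot

noncomputable section

namespace GR

/-- the substitution `w = R u` in the local form -/
theorem BCI_point (R ρ t : ℝ) (hR : 0 < R) (hρ1 : ρ ≤ 1) (κ θ : ℂ) (d : ℤ) (hθ : ‖θ‖ = t) (T h : ℂ → ℂ)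
    (hT : ∀ u ∈ ball (0 : ℂ) 1, T ((R : ℂ) * u) = θ * h u)
    (hh : ∀ u : ℂ, ρ / 2 < ‖u‖ → ‖u‖ < ρ → ‖h u - κ * u ^ d‖ ≤ 1 / 16 * ‖κ * u ^ d‖ ∧
      1 ≤ ‖κ * u ^ d‖)
    (w : ℂ) (hw1 : ρ / 2 * R < ‖w‖) (hw2 : ‖w‖ < ρ * R) :
    ‖T w - θ * κ * (R : ℂ) ^ (-d) * w ^ d‖ ≤ 1 / 16 * ‖θ * κ * (R : ℂ) ^ (-d) * w ^ d‖ ∧
      t ≤ ‖θ * κ * (R : ℂ) ^ (-d) * w ^ d‖ := by
  have hR' : (R : ℂ) ≠ 0 := by exact_mod_cast hR.ne'
  set u : ℂ := w / R with hu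
  have hwu : w = (R : ℂ) * u := by rw [hu]; field_simp
  have hnu : ‖u‖ = ‖w‖ / R := by
    rw [hu, norm_div, Complex.norm_real, Real.norm_of_nonneg hR.le]
  have hu1 : ρ / 2 < ‖u‖ := by rw [hnu, lt_div_iff₀ hR]; exact hw1
  have hu2 : ‖u‖ < ρ := by rw [hnu, div_lt_iff₀ hR]; exact hw2
  have e1 : θ * κ * (R : ℂ) ^ (-d) * w ^ d = θ * (κ * u ^ d) := by
    rw [hwu, mul_zpow, zpow_neg]
    have : (R : ℂ) ^ d ≠ 0 := zpow_ne_zero _ hR'
    field_simp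
  have e2 : T w = θ * h u := by
    rw [hwu]
    apply hT
    rw [mem_ball_zero_iff]
    linarith
  obtain ⟨h1, h2⟩ := hh u hu1 hu2
  rw [e1, e2, ← mul_sub, norm_mul, norm_mul, hθ]
  have ht : 0 ≤ t := by rw [← hθ]; exact norm_nonneg _
  constructor
  · calc t * ‖h u - κ * u ^ d‖ ≤ t * (1 / 16 * ‖κ * u ^ d‖) := mul_le_mul_of_nonneg_left h1 ht
      _ = 1 / 16 * (t * ‖κ * u ^ d‖) := by ring
  · calc t = t * 1 := by ring
      _ ≤ t * ‖κ * u ^ d‖ := mul_le_mul_of_nonneg_left h2 ht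

theorem BCI (hNAT : NAT_stmt) (hCEL : CEL_stmt) (hMD3 : MD3_stmt) (hGUN : GUN_stmt) (hSCA : SCA_stmt)
    (hLOC3 : LOC3_stmt) (hBSY : BSY_stmt) : BCI_stmt := by
  intro C D hKQ hKD
  have hC1 : 1 ≤ C := hKQ.1
  have hD1 : 1 ≤ D := hKD.1
  have hC0 : 0 < C := by linarith
  have hΓ1 : 1 ≤ 16 * C ^ 2 := by nlinarith
  obtain ⟨X₀, c₀, hX₀, hc₀, hloc⟩ := hLOC3 (16 * C ^ 2) 2000 (32 * C ^ 2 * D)
    (1 / (16 * C)) (1 / 16) 1 hΓ1 (by norm_num) (by positivity) (by positivity) (by norm_num) le_rfl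
  have hCX : 0 < C * X₀ := by positivity
  refine ⟨16 * C + 2 * C * X₀ + X₀ + 2, c₀, by linarith, hc₀, ?_⟩
  intro c p q G E hret hG hX hDm hem hEg hE
  obtain ⟨-, -, -, -, -, -, -, -, -, -, hnat⟩ := hNAT 2 c le_rfl
  obtain ⟨hR0, hR2, hX1, hRX, hA0, hxcp, hxc⟩ := hnat p q hret
  have hX16 : 16 * C ≤ X 2 c p q := by linarith
  have hX2C : 2 * C * X₀ ≤ X 2 c p q := by linarith
  have hXX₀ : X₀ ≤ X 2 c p q := by linarith
  have hXpos : 0 < X 2 c p q := by linarith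
  have hp1 : 1 ≤ p := by have := hret.q1; have := hret.qp; omega
  obtain ⟨-, -, hlam⟩ := hCEL C 2 c p q G hKQ hret hG hX16
  obtain ⟨i, hi, k, hk, a, b, P, μ, l, hl1, hlP, hP2, hμ, hab, hab'⟩ :=
    hMD3 C 2 c p q G hKQ hret hG hX16
  obtain ⟨u₀, γ, hu₀, hγ, hg⟩ := hGUN C D 2 c p q G i hKQ hKD hret hG hX16 hi
  obtain ⟨θ, hθ, hσ0, hsca⟩ := hSCA C 2 c p q G i hKQ hret hG hi
  have hlam1 : ‖xc 2 c p q i - 1‖ ≤ 1 / X₀ := by
    refine (hxc i).trans (hlam.trans ?_)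
    rw [div_le_div_iff₀ hXpos (by linarith)]
    linarith
  have hXinv : 1 / X 2 c p q ≤ 1 / X₀ := one_div_le_one_div_of_le (by linarith) hXX₀
  have hu₀' : ‖u₀‖ ≤ 1 / X₀ := by
    rw [hu₀]
    exact hXinv
  obtain ⟨ρ, κ, d, hρc, hρ1, hρΛ, hd, hann⟩ := hloc (gg C 2 c p q i G) (Bh C 2 c p q i) u₀ γ
    (xc 2 c p q i) a b hγ hu₀' hlam1 hg hab
  have hρ0 : 0 < ρ := by linarith
  have hmi : p - i < p := by have := Finset.mem_Icc.1 hi; omega
  have hρ11 : ρ ≤ 1 := by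
    refine hρ1.trans ?_
    rw [div_le_one (by positivity)]
    linarith
  have hpt := BCI_point (R 2 c q) ρ (sg C 2 c p q / R 2 c q ^ 2) hR0 hρ11 κ θ d hθ
    (tau (B 2 c p q) G (p - i))
    (fun u => Bh C 2 c p q i (gg C 2 c p q i G u) * deriv (gg C 2 c p q i G) u ^ 2) hsca hann
  by_cases hd0 : d = 0
  · -- second alternative
    right
    refine ⟨p - i, hmi, ρ, θ * κ, hρc, hρ1, ?_, ?_⟩
    · have h1 : (3 / 4 : ℝ) * ρ * R 2 c q = 3 / 4 * ρ * R 2 c q := rfl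
      have hpos : 0 < 3 / 4 * ρ * R 2 c q := by positivity
      have hn : ‖((3 / 4 * ρ * R 2 c q : ℝ) : ℂ)‖ = 3 / 4 * ρ * R 2 c q := by
        rw [Complex.norm_real, Real.norm_of_nonneg hpos.le]
      have hρR : 0 < ρ * R 2 c q := by positivity
      have h2 := (hpt ((3 / 4 * ρ * R 2 c q : ℝ) : ℂ) (by rw [hn]; linarith) (by rw [hn]; linarith)).2
      rw [hd0] at h2
      simpa using h2
    · intro w hw1 hw2
      have h2 := (hpt w hw1 hw2).1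
      rw [hd0] at h2
      simpa using h2
  · -- first alternative
    left
    have hnd : ¬ (((2 : ℕ) : ℤ) ∣ d + 2) := by
      rcases hd with h | h | h
      · rw [h]; norm_num
      · exact absurd h hd0
      · rw [h.1]; norm_num
    have hρR : 0 < ρ * R 2 c q := by positivity
    have hsg : 0 ≤ sg C 2 c p q / R 2 c q ^ 2 := by rw [← hθ]; exact norm_nonneg _
    have hle : ρ * R 2 c q ≤ R 2 c q / (8 * C) := by
      calc ρ * R 2 c q ≤ 1 / (16 * C) * R 2 c q := mul_le_mul_of_nonneg_right hρ1 hR0.le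
        _ = R 2 c q / (8 * C) / 2 := by field_simp; norm_num
        _ ≤ R 2 c q / (8 * C) := by
            have : 0 < R 2 c q / (8 * C) := by positivity
            linarith
    have hb := hBSY C 2 c p q G E hKQ hret hG hX16 hDm hem hEg hE (p - i) hmi
      (θ * κ * ((R 2 c q : ℝ) : ℂ) ^ (-d)) d (ρ * R 2 c q) (sg C 2 c p q / R 2 c q ^ 2) hnd hρR hle hsg (by
        intro w hw1 hw2
        obtain ⟨h1, h2⟩ := hpt w (by linarith) hw2
        refine ⟨h1.trans ?_, h2⟩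
        have := norm_nonneg (θ * κ * ((R 2 c q : ℝ) : ℂ) ^ (-d) * w ^ d)
        linarith)
    have e1 : sg C 2 c p q / R 2 c q ^ 2 * (ρ * R 2 c q) ^ 2 = sg C 2 c p q * ρ ^ 2 := by
      have : R 2 c q ≠ 0 := hR0.ne'
      field_simp
    rw [e1] at hb
    refine le_trans ?_ hb
    have hsg0 : 0 ≤ sg C 2 c p q := by
      have h3 : sg C 2 c p q = sg C 2 c p q / R 2 c q ^ 2 * R 2 c q ^ 2 := by
        have : R 2 c q ≠ 0 := hR0.ne'
        field_simp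
      rw [h3]
      positivity
    exact mul_le_mul_of_nonneg_left (pow_le_pow_left₀ hc₀.le hρc 2) hsg0

end GR
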